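import Pool.Agent.Zk8.KT.Conv

/-!
# The exact density of the ordinary places of hyperkähler varieties, and the distribution of the heights

Let `X i` (`i` in a finite set `ι`) be projective hyperkähler varieties over a number field `K`, for
example K3 surfaces. `E i` is the endomorphism field of the transcendental Hodge structure `T i` of
`H²(X i)`, a totally real or a CM field. The endomorphisms are defined over a finite Galois extension
`L` of `K` (for all `i`); its Galois group is the image of the Galois group of `K` in the product of
the groups `Aut (E i)` (`image`).

1. At every place `v` of degree one of good reduction the reduction of `X i` is supersingular (the height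
   of the formal Brauer group is infinite, `ht = 0`) or its height is at least the order of the
   Frobenius element in `Aut (E i)`; it is supersingular if `dim_E T = 1` and the complex conjugation is a
   power of the Frobenius element.
2. Outside a set of places of density zero the height is *equal* to the order of the Frobenius element in
   `Aut (E i)`, except that the reduction is supersingular in the last case (`generic`).
3. The places where the heights of the `X i` have given values `h i` have a natural density, the
   proportion of the elements of `Gal (L / K)` with this property.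
4. The places at which all `X i` are ordinary in all degrees have the natural density `1 / [L : K]`.
-/

set_option autoImplicit false

namespace Pool.Agent.Results.MP_17d720_ag.HeightsOfReductions

open NumberField IsDedekindDomain Filter Topology
open Pool.Agent.W401.Cheb Pool.Agent.W528.Ord Pool.Agent.N184.HK Pool.Agent.Zk8.KT

theorem result {K : Type} [Field K] [NumberField K] {ι : Type} [Finite ι]
    (ℓ : ι → ℕ) [∀ i, Fact (ℓ i).Prime]
    (X : ∀ i, Hyperkaehler K (ℓ i)) (D : ∀ i, Transc (X i)) :
    -- the places of degree one
    (∀ (i : ι) (v : HeightOneSpectrum (𝓞 K)) (hv : v ∉ (X i).bad),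
      (Ideal.absNorm v.asIdeal).Prime → ∀ σ : GK K, IsFrob v σ →
        (ht (X i) v hv = 0 ∨ orderOf ((D i).c σ) ≤ ht (X i) v hv) ∧
        ((D i).generic ((D i).c σ) = 0 → ht (X i) v hv = 0)) ∧
    -- almost all heights are generic
    Tendsto (ratio fun v : HeightOneSpectrum (𝓞 K) => ∃ (i : ι) (hv : v ∉ (X i).bad) (σ : GK K),
      IsFrob v σ ∧ ht (X i) v hv ≠ (D i).generic ((D i).c σ)) atTop (𝓝 0) ∧
    -- the density of every family of heights
    (∀ h : ι → ℕ, Tendsto (ratio fun v : HeightOneSpectrum (𝓞 K) =>
      ∀ i, ∃ hv : v ∉ (X i).bad, ht (X i) v hv = h i) atTop
      (𝓝 (((withHeights D h).ncard : ℝ) / ((image D).ncard : ℝ)))) ∧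
    -- the density of the ordinary places
    Tendsto (ratio fun v : HeightOneSpectrum (𝓞 K) => ∀ i, ∃ hv : v ∉ (X i).bad,
      ∀ k ≤ (X i).d, (X i).OrdinaryIn v hv k) atTop (𝓝 (1 / ((image D).ncard : ℝ))) :=
  ⟨fun i v hv hp σ hσ => main_degree_one (D i) v hv hp σ hσ, main_exception D, main_height D,
    main_ordinary D⟩

end Pool.Agent.Results.MP_17d720_ag.HeightsOfReductions
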